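import Pool.Agent.Helpers25.IBPoly

/-!
# MP_937656_gt, Q1 (full answer: NO, in every dimension `n ≥ 5`)

Every polytope in `ℝ^n`, `n ≥ 5`, which is an intersection body is the polar body of an
origin-symmetric zonotope (with spanning generators).
-/

namespace Pool.Agent.Results.MP_937656_gt.NoExotic

open Pool.Agent.Helpers25.IB

/-- For every `n ≥ 5`, every polytope `K ⊂ ℝ^n` that is an intersection body is of the form
`Z^*` for an origin-symmetric zonotope `Z = Σ [-v_i, v_i]` with spanning `v_i`. -/
theorem result (n : ℕ) (hn : 5 ≤ n) (K : Set (Rn n)) (hP : IsPolytope K)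
    (hI : IsIntersectionBody K) :
    ∃ (N : ℕ) (v : Fin N → Rn n), Spanning v ∧ K = polarBody (zonotope v) :=
  main (by rw [finrank_euclideanSpace_fin]; exact hn) K hP hI

end Pool.Agent.Results.MP_937656_gt.NoExotic
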